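import Pool.Agent.Lib_helper33.Ore.Final

/-!
# Edges of vertex-critical `k`-chromatic graphs on `O(k)` vertices

Main idea of the lower bound. Let `G` be vertex-critical, `K = k - 1` and fix a `K`-colouring of
`G - x`. The vertices that can be moved away from their colour class by recolouring boundedly many
classes (in many ways) form a closure; `x` is not in it, and every vertex of the complement `S` has
a neighbour inside `S` in almost all classes. Counting edges between classes of sizes `d_i` gives
at least `max d_i d_j` edges for almost all pairs of classes. One then covers the vertex set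
greedily by boundedly many such stuck sets and uses that `r (k - r)` is subadditive. The upper
bound uses joins with a vertex and Hajós joins with complete graphs.
-/

set_option autoImplicit false

namespace Pool.Agent.Results.MP_5ababd_co.DenseAsymptotics

/-- `G` is critical `k`-chromatic: its chromatic number is `k`, and deleting any vertex gives
chromatic number `k - 1`. -/
def IsCritical (k : ℕ) {V : Type} (G : SimpleGraph V) : Prop :=
  G.chromaticNumber = (k : ℕ∞) ∧
    ∀ x : V, (G.induce {x}ᶜ).chromaticNumber = ((k - 1 : ℕ) : ℕ∞)

/-- `f_k(n)`: the minimum number of edges of a critical `k`-chromatic graph on `n` vertices. -/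
noncomputable def f (k n : ℕ) : ℕ :=
  sInf {e : ℕ | ∃ G : SimpleGraph (Fin n), IsCritical k G ∧ G.edgeSet.ncard = e}

/-- Uniformly for `n = O(k)`, whenever it is defined, `f_k(n)` equals
`((k - 1) n + r (k - r)) / 2 + o(k ^ 2)`, where `r` is the remainder of `n` modulo `k`. -/
theorem result :
    ∀ C ε : ℝ, 0 < ε → ∃ k₀ : ℕ, ∀ k : ℕ, k₀ ≤ k → ∀ n : ℕ, (n : ℝ) ≤ C * k →
      (∃ G : SimpleGraph (Fin n), IsCritical k G) →
      |(f k n : ℝ) - (((k : ℝ) - 1) * n + ((n % k : ℕ) : ℝ) * (k - ((n % k : ℕ) : ℝ))) / 2| ≤
        ε * (k : ℝ) ^ 2 := by
  intro C ε hε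
  exact Pool.Agent.Ore.main C ε hε

end Pool.Agent.Results.MP_5ababd_co.DenseAsymptotics
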