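import Pool.Agent.Lib_helper92.OW.Main
import Pool.Agent.Lib_helper53.OW.Fin

/-!
# Ore's conjecture on critical `k`-chromatic graphs for `n ≡ 0` and `n ≡ 2` modulo `k - 1`

Write `K = k - 1` and `df(W) = (K + 1) |W| - 2 e(W)`. A minimal counterexample `G` of the claim
`df(G) ≤ 2 ⌊(n - 1) / K⌋ + v(k, (n - 1) mod K)` is studied by contracting the colour classes of
colourings of proper subsets (with added edges) to cliques: all proper subsets have large `df`.
Merging two neighbours of a vertex of degree `K` excludes the residues `0, 1, K - 2, K - 1` of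
`n - 1`; for the others the subgraph of the vertices of degree `K` is described by cloning, and the
kernel lemma bounds the number of its components. The upper bounds are Ore compositions of
complete graphs with the graphs of Gallai and with one graph on `2 K + 2` vertices.
-/

set_option autoImplicit false

namespace Pool.Agent.Results.MP_5ababd_co.OreResidueClasses

/-- `G` is critical `k`-chromatic: its chromatic number is `k`, and deleting any vertex gives
chromatic number `k - 1`. -/
def IsCritical (k : ℕ) {V : Type} (G : SimpleGraph V) : Prop :=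
  G.chromaticNumber = (k : ℕ∞) ∧
    ∀ x : V, (G.induce {x}ᶜ).chromaticNumber = ((k - 1 : ℕ) : ℕ∞)

/-- `f_k(n)`: the minimum number of edges of a critical `k`-chromatic graph on `n` vertices. -/
noncomputable def f (k n : ℕ) : ℕ :=
  sInf {e : ℕ | ∃ G : SimpleGraph (Fin n), IsCritical k G ∧ G.edgeSet.ncard = e}

/-- The constants of the lower bound. -/
def v (k r : ℕ) : ℤ :=
  if r = 0 then (k : ℤ) - 2
  else if r = 1 ∨ r + 2 = k then 2
  else if k % 2 = 0 then (if r + 3 = k then 2 else 0)
  else if r % 2 = 1 then 0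
  else if r + 5 = k then -1
  else 1

/-- For `k ≥ 8` and `m ≥ 2` the numbers `f_k(m (k - 1))` and `f_k(m (k - 1) + 2)` are defined,
they are `m (k - 2) (k + 1) / 2` and `m (k - 2) (k + 1) / 2 + k - 1`, and Ore's recursion
`f_k(n + k - 1) = f_k(n) + (k - 2) (k + 1) / 2` holds for these `n`. For every `n` for which
`f_k(n)` is defined, `2 f_k(n) ≥ k n - 2 ⌊(n - 1) / (k - 1)⌋ - v(k, (n - 1) mod (k - 1))`. -/
theorem result :
    ∀ k : ℕ, 8 ≤ k →
      (∀ m : ℕ, 2 ≤ m →
        ((∃ G : SimpleGraph (Fin (m * (k - 1))), IsCritical k G) ∧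
          2 * (f k (m * (k - 1)) : ℤ) = m * (((k : ℤ) - 2) * (k + 1))) ∧
        ((∃ G : SimpleGraph (Fin (m * (k - 1) + 2)), IsCritical k G) ∧
          2 * (f k (m * (k - 1) + 2) : ℤ) =
            m * (((k : ℤ) - 2) * (k + 1)) + 2 * ((k : ℤ) - 1)) ∧
        (2 * (f k ((m + 1) * (k - 1)) : ℤ) =
            2 * (f k (m * (k - 1)) : ℤ) + ((k : ℤ) - 2) * (k + 1)) ∧
        (2 * (f k ((m + 1) * (k - 1) + 2) : ℤ) =
            2 * (f k (m * (k - 1) + 2) : ℤ) + ((k : ℤ) - 2) * (k + 1))) ∧
      (∀ n : ℕ, (∃ G : SimpleGraph (Fin n), IsCritical k G) →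
        (k : ℤ) * n - 2 * ((n - 1) / (k - 1) : ℕ) - v k ((n - 1) % (k - 1)) ≤
          2 * (f k n : ℤ)) := by
  intro k hk
  exact Pool.Agent.OW.final_all (by omega) (Pool.Agent.OW92.claim_all (K := k - 1) (by omega))

end Pool.Agent.Results.MP_5ababd_co.OreResidueClasses
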