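import Pool.Agent.Lib_helper92.OX.Main6
import Pool.Agent.Lib_helper92.OX.FinG

/-!
# The minimum number of edges of critical 6-chromatic and 7-chromatic graphs

Let `K = k - 1` and write `df(W) = k |W| - 2 e(W)`. A minimal counterexample `G` of
`df(G) ≤ 2 ⌊(n - 1) / K⌋ + v((n - 1) mod K)`, `v(0) = K - 1`, `v(p) = p² - K p + K + 1`, is studied
by contracting the colour classes of colourings of proper subsets (with one added edge) to cliques:
all proper subsets have large `df`. Merging two neighbours of a vertex of degree `K` excludes the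
residues `0, 1, K - 1` of `n - 1`; for the others the subgraph of the vertices of degree `K` is
described by cloning (for `K = 6` with exchanges of colours in a clique `K_6` at a clique of three or
four vertices of degree `6`), and the kernel lemma bounds the number of its components. The order
`n = 22`, `k = 7`, is reduced to `k = 6`. The upper bounds are Ore compositions.
-/

set_option autoImplicit false

namespace Pool.Agent.Results.MP_5ababd_co.OreSixSeven

/-- `G` is critical `k`-chromatic: its chromatic number is `k`, and deleting any vertex gives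
chromatic number `k - 1`. -/
def IsCritical (k : ℕ) {V : Type} (G : SimpleGraph V) : Prop :=
  G.chromaticNumber = (k : ℕ∞) ∧
    ∀ x : V, (G.induce {x}ᶜ).chromaticNumber = ((k - 1 : ℕ) : ℕ∞)

/-- `f_k(n)`: the minimum number of edges of a critical `k`-chromatic graph on `n` vertices. -/
noncomputable def f (k n : ℕ) : ℕ :=
  sInf {e : ℕ | ∃ G : SimpleGraph (Fin n), IsCritical k G ∧ G.edgeSet.ncard = e}

/-- The constants: `t(k, 0) = 2` and `t(k, p) = p (2 k - 1 - p)` for `p > 0`. -/
def t (k p : ℕ) : ℕ := if p = 0 then 2 else p * (2 * k - 1 - p)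

/-- For `k = 6` and `k = 7`: there are critical `k`-chromatic graphs on `n` vertices iff `n = k` or
`n ≥ k + 2`, and for all these `n`, with `q = ⌊(n - 1) / (k - 1)⌋` and `p = (n - 1) mod (k - 1)`,
`2 f_k(n) = (k - 2)(k + 1) q + t(k, p)` and `2 f_k(n + k - 1) = 2 f_k(n) + (k - 2)(k + 1)`. -/
theorem result (k : ℕ) (hk : k = 6 ∨ k = 7) :
    (∀ n : ℕ, (∃ G : SimpleGraph (Fin n), IsCritical k G) ↔ n = k ∨ k + 2 ≤ n) ∧
      ∀ n : ℕ, n = k ∨ k + 2 ≤ n →
        2 * f k n = (k - 2) * (k + 1) * ((n - 1) / (k - 1)) + t k ((n - 1) % (k - 1)) ∧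
        2 * f k (n + (k - 1)) = 2 * f k n + (k - 2) * (k + 1) :=
  Pool.Agent.OX92.final_67 Pool.Agent.OX92.claim5 Pool.Agent.OX92.claim6 k hk

end Pool.Agent.Results.MP_5ababd_co.OreSixSeven
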