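import Pool.Agent.Lib_helper92.O3.B.Fin

/-!
# Ore's value for critical `k`-chromatic graphs on `2k - 1 + p` vertices, `2 ≤ p ≤ k - 1`

Write `K = k - 1` and let `f(W)` be the number of non-edges inside a set `W` of vertices plus the
excess `deg - K` of its vertices. By induction, contracting the colour classes of a colouring of the
complement of `W` to a clique bounds `f(W)` from below in terms of smaller critical graphs. If `W`
contains an independent triple and its complement is critical with one colour less, then
`f(W) ≥ 2 |W| - 4`; otherwise all critical subgraphs with one colour less that avoid an independent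
triple are `K`-cliques, and two such cliques give a contradiction. The upper bound is the
construction of Ore.
-/

set_option autoImplicit false

namespace Pool.Agent.Results.MP_5ababd_co.OreWholeSecondPeriod

/-- `G` is critical `k`-chromatic: its chromatic number is `k`, and deleting any vertex gives
chromatic number `k - 1`. -/
def IsCritical (k : ℕ) {V : Type} (G : SimpleGraph V) : Prop :=
  G.chromaticNumber = (k : ℕ∞) ∧
    ∀ x : V, (G.induce {x}ᶜ).chromaticNumber = ((k - 1 : ℕ) : ℕ∞)

/-- `f_k(n)`: the minimum number of edges of a critical `k`-chromatic graph on `n` vertices. -/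
noncomputable def f (k n : ℕ) : ℕ :=
  sInf {e : ℕ | ∃ G : SimpleGraph (Fin n), IsCritical k G ∧ G.edgeSet.ncard = e}

/-- For `2 ≤ p ≤ k - 1` the number `f_k(2k - 1 + p)` is defined, it is
`((k - 1)(2k - 1 + p) + p (k - p) + k - 5) / 2`, and Ore's recursion
`f_k(n + k - 1) = f_k(n) + (k - 2)(k + 1) / 2` holds for `n = k + p`. -/
theorem result :
    ∀ p k : ℕ, 2 ≤ p → p + 1 ≤ k →
      (∃ G : SimpleGraph (Fin (2 * k - 1 + p)), IsCritical k G) ∧
      2 * (f k (2 * k - 1 + p) : ℤ) =
        ((k : ℤ) - 1) * (2 * k - 1 + p) + p * (k - p) + k - 5 ∧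
      2 * (f k (2 * k - 1 + p) : ℤ) = 2 * (f k (k + p) : ℤ) + ((k : ℤ) - 2) * (k + 1) := by
  intro p k hp hk
  exact Pool.Agent.O3.final hp hk

end Pool.Agent.Results.MP_5ababd_co.OreWholeSecondPeriod
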